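import Pool.Agent.H418R2.PerfPoly

/-!
# Partitioned probe recognition for all classes between the perfect graphs and the graphs without
induced cycles of length 5, 9, 11

(Continues the starting files `Pool.Agent.H418R2.Perf*`.)
-/

set_option autoImplicit false

namespace Pool.Agent.Y403.PP

open Finset Pool.Agent.NPC Pool.Agent.H418R2.Perf

/-- No hole with `5`, `9` or `11` vertices inside the set of vertices given by `S`. -/
def NoHoles {V : Type} (G : SimpleGraph V) (S : V → Prop) : Prop :=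
  ∀ l, (l = 2 ∨ l = 4 ∨ l = 5) → ∀ f : ℕ → V, (∀ i < 2 * l + 1, S (f i)) → ¬ Hole G (2 * l + 1) f

section Gen

variable {V : Type} [DecidableEq V] {G : SimpleGraph V} {st : V → V → ℕ} {P : V → Prop}

/-- the vertices of the extended graph -/
def SP (P : V → Prop) : V ⊕ (V × V × ℕ) → Prop :=
  Sum.elim P (fun z : V × V × ℕ => P z.1 ∧ P z.2.1 ∧ z.2.2 < 3)

theorem list_ok {u v : V} (hu : P u) (hv : P v) (l : List (V ⊕ (V × V × ℕ)))
    (hl : ∀ x ∈ l, x = Sum.inl u ∨ x = Sum.inl v ∨ ∃ r < 3, x = Sum.inr (u, v, r)) (i : ℕ) :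
    SP P (l.getD i (Sum.inl u)) := by
  have hx2 : ∀ z : V ⊕ (V × V × ℕ), (z = Sum.inl u ∨ z = Sum.inl v ∨
      ∃ r < 3, z = Sum.inr (u, v, r)) → SP P z := by
    rintro z (rfl | rfl | ⟨r, hr, rfl⟩)
    · exact hu
    · exact hv
    · exact ⟨hu, hv, hr⟩
  by_cases hil : i < l.length
  · rw [List.getD_eq_getElem _ _ hil]
    exact hx2 _ (hl _ (List.getElem_mem hil))
  · rw [List.getD_eq_default _ _ (by omega)]
    exact hx2 _ (Or.inl rfl)

theorem gen_edge' (h : NoHoles (hat G st) (SP P)) :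
    ∀ u v, P u → P v → u ≠ v → st u v = 1 → G.Adj u v := by
  intro u v hu hv hne hst
  by_contra hadj
  have hadj' : ¬ G.Adj v u := fun h => hadj h.symm
  refine h 2 (Or.inl rfl) (fun i => ([Sum.inl u, Sum.inr (u, v, 0), Sum.inl v,
      Sum.inr (u, v, 1), Sum.inr (u, v, 2)] : List (V ⊕ (V × V × ℕ))).getD i (Sum.inl u)) ?_ ?_
  · intro i _
    refine list_ok hu hv _ ?_ i
    intro x hx
    simp only [List.mem_cons, List.not_mem_nil, or_false] at hx
    rcases hx with rfl | rfl | rfl | rfl | rfl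
    · exact Or.inl rfl
    · exact Or.inr (Or.inr ⟨0, by omega, rfl⟩)
    · exact Or.inr (Or.inl rfl)
    · exact Or.inr (Or.inr ⟨1, by omega, rfl⟩)
    · exact Or.inr (Or.inr ⟨2, by omega, rfl⟩)
  · intro i hi j hj
    interval_cases i <;> interval_cases j <;> simp [side, probe, hst, hadj, hadj', hne, hne.symm]

theorem gen_nonedge' (h : NoHoles (hat G st) (SP P)) :
    ∀ u v, P u → P v → u ≠ v → st u v = 2 → ¬ G.Adj u v := by
  intro u v hu hv hne hst hadj
  have hadj' : G.Adj v u := hadj.symm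
  refine h 2 (Or.inl rfl) (fun i => ([Sum.inl u, Sum.inr (u, v, 1),
      Sum.inr (u, v, 0), Sum.inr (u, v, 2), Sum.inl v] : List (V ⊕ (V × V × ℕ))).getD i
        (Sum.inl u)) ?_ ?_
  · intro i _
    refine list_ok hu hv _ ?_ i
    intro x hx
    simp only [List.mem_cons, List.not_mem_nil, or_false] at hx
    rcases hx with rfl | rfl | rfl | rfl | rfl
    · exact Or.inl rfl
    · exact Or.inr (Or.inr ⟨1, by omega, rfl⟩)
    · exact Or.inr (Or.inr ⟨0, by omega, rfl⟩)
    · exact Or.inr (Or.inr ⟨2, by omega, rfl⟩)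
    · exact Or.inr (Or.inl rfl)
  · intro i hi j hj
    interval_cases i <;> interval_cases j <;> simp [side, probe, hst, hadj, hadj', hne, hne.symm]

theorem gen_inl' (h : NoHoles (hat G st) (SP P)) : NoHoles G P := by
  intro l hl f hf hole
  refine h l hl (fun i => Sum.inl (f i)) (fun i hi => hf i hi) ?_
  intro i hi j hj
  exact hole i hi j hj

end Gen

/-! ### Completions without these holes give satisfying assignments -/

theorem hole_length' (ty y0 y1 : Bool) :
    ∃ l, (l = 2 ∨ l = 4 ∨ l = 5) ∧ (holeBad ty y0 y1).length = 2 * l + 1 := by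
  cases ty <;> cases y0 <;> cases y1
  · exact ⟨5, by omega, rfl⟩
  · exact ⟨5, by omega, rfl⟩
  · exact ⟨2, by omega, rfl⟩
  · exact ⟨2, by omega, rfl⟩
  · exact ⟨4, by omega, rfl⟩
  · exact ⟨4, by omega, rfl⟩
  · exact ⟨4, by omega, rfl⟩
  · exact ⟨4, by omega, rfl⟩

theorem sound' {one : ℕ} {g : ℕ → Gad} {n M xp : ℕ} {G : SimpleGraph HV}
    (h1 : ∀ u v, ValidV n M u → ValidV n M v → u ≠ v → stH one g u v = 1 → G.Adj u v)
    (h2 : ∀ u v, ValidV n M u → ValidV n M v → u ≠ v → stH one g u v = 2 → ¬ G.Adj u v)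
    (hgood : NoHoles G (ValidV n M))
    {c : ℕ} (hc : c < M) (hd : DistinctG (g c))
    (hvar : ∀ j ∈ [0, 1, 2], ((g c).1 = false → j ≠ 2) → vr (g c) j < n)
    (hxp : xp < n) (hxp3 : posn (g c) xp = 3) (y : ℕ → Bool)
    (hy : ∀ x, G.Adj (Sum.inl (false, x)) (Sum.inl (true, x)) ↔ y x = true) :
    SatG (g c) y = true := by
  classical
  set y0 := y (g c).2.1 with hy0
  set y1 := y (g c).2.2.1 with hy1
  set y2 := y (g c).2.2.2 with hy2
  let e : ℕ → Bool := fun j =>
    decide (G.Adj (Sum.inr (c, endp (g c).1 false j)) (Sum.inr (c, endp (g c).1 true j)))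
  have he : ∀ j ∈ [0, 1, 2], ((g c).1 = false → j ≠ 2) →
      (G.Adj (Sum.inr (c, endp (g c).1 false j)) (Sum.inr (c, endp (g c).1 true j)) ↔
        bit3 (e 0) (e 1) (e 2) j = true) := by
    intro j hj _
    have : j = 0 ∨ j = 1 ∨ j = 2 := by simpa using hj
    rcases this with rfl | rfl | rfl <;> simp [bit3, e]
  have hy' : ∀ j ∈ [0, 1, 2], ((g c).1 = false → j ≠ 2) →
      (G.Adj (Sum.inl (false, vr (g c) j)) (Sum.inl (true, vr (g c) j)) ↔
        bit3 y0 y1 y2 j = true) := by
    intro j _ _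
    rw [hy, hy0, hy1, hy2, bit3_vr]
  have hnohole : ∀ (l : List LV) (m : ℕ), (m = 2 ∨ m = 4 ∨ m = 5) → l.length = 2 * m + 1 →
      isHoleL (g c).1 y0 y1 y2 (e 0) (e 1) (e 2) l = true → False := by
    intro l m hm hlen hl
    simp only [isHoleL, Bool.and_eq_true, List.all_eq_true, List.mem_range] at hl
    obtain ⟨hok, hadj⟩ := hl
    have hmem : ∀ i, i < l.length → okL (g c).1 (l.getD i (Sum.inr 0)) = true := by
      intro i hi
      apply hok
      rw [List.getD_eq_getElem _ _ hi]
      exact List.getElem_mem hi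
    have hvalid : ∀ u : LV, okL (g c).1 u = true → ValidV n M (emb g xp c u) := by
      rintro (a | i) h
      · simp only [okL, Sum.elim_inl, Bool.or_eq_true, Bool.and_eq_true, decide_eq_true_eq,
          Bool.not_eq_true', decide_eq_false_iff_not] at h
        simp only [ValidV, emb, Sum.elim_inl]
        split_ifs with h3
        · exact hxp
        · have h4 := h.resolve_right (fun h' => h3 h'.1)
          apply hvar
          · have : a.2 < 3 := h4.1
            interval_cases a.2 <;> simp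
          · intro hty
            rcases h4.2 with h5 | h5
            · rw [hty] at h5
              exact absurd h5 (by simp)
            · exact h5
      · exact ⟨hc, by simpa [okL] using h⟩
    refine hgood m hm (fun i => emb g xp c (l.getD i (Sum.inr 0))) ?_ ?_
    · intro i hi
      exact hvalid _ (hmem i (by rw [hlen]; exact hi))
    · intro i hi j hj
      rw [← hlen] at hi hj
      rw [emb_adj h1 h2 hc hd hvar hxp hxp3 y0 y1 y2 (e 0) (e 1) (e 2) hy' he (hmem i hi) (hmem j hj)]
      have := hadj i hi j hj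
      rw [beq_iff_eq] at this
      rw [this, hlen]
      simp
  have hye : ∀ j ∈ [0, 1, 2], ((g c).1 = false → j ≠ 2) →
      bit3 (e 0) (e 1) (e 2) j = bit3 y0 y1 y2 j := by
    intro j hj hj2
    by_contra hne
    cases h3 : bit3 y0 y1 y2 j
    · have h4 : bit3 (e 0) (e 1) (e 2) j = true := by
        cases h5 : bit3 (e 0) (e 1) (e 2) j
        · exact absurd (h5.trans h3.symm) hne
        · rfl
      exact hnohole (holeQ (g c).1 j) 2 (by omega) rfl (holeQ_spec _ _ _ _ _ _ _ j hj hj2 h3 h4)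
    · have h4 : bit3 (e 0) (e 1) (e 2) j = false := by
        cases h5 : bit3 (e 0) (e 1) (e 2) j
        · rfl
        · exact absurd (h5.trans h3.symm) hne
      exact hnohole (holeP (g c).1 j) 2 (by omega) rfl (holeP_spec _ _ _ _ _ _ _ j hj hj2 h3 h4)
  have q0 : e 0 = y0 := by simpa [bit3] using hye 0 (by simp) (by simp)
  have q1 : e 1 = y1 := by simpa [bit3] using hye 1 (by simp) (by simp)
  have q2 : (g c).1 = true → e 2 = y2 := by
    intro hty
    simpa [bit3] using hye 2 (by simp) (fun h => by rw [hty] at h; exact absurd h (by simp))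
  by_contra hcon
  have hcon' : satG (g c).1 y0 y1 y2 = false := by
    cases h : satG (g c).1 y0 y1 y2
    · rfl
    · exact absurd h hcon
  obtain ⟨m, hm, hlen⟩ := hole_length' (g c).1 y0 y1
  have := holeBad_spec (g c).1 y0 y1 y2 (e 2) hcon' q2
  exact hnohole _ m hm hlen (by rw [q0, q1]; exact this)

theorem abs_sat' {n one xp M : ℕ} {g : ℕ → Gad} {gs : List Gad} (hgs : OkGs n one xp gs)
    (hM : M = gs.length) (hg : ∀ c < M, ∀ hc : c < gs.length, g c = gs[c]) {G : SimpleGraph HV}
    (hC : NoHoles (hat G (stH one g)) (SP (ValidV n M))) :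
    ∃ y : ℕ → Bool, y one = true ∧ ∀ gg ∈ gs, SatG gg y = true := by
  classical
  have h1 : ∀ u v, ValidV n M u → ValidV n M v → u ≠ v → stH one g u v = 1 → G.Adj u v :=
    gen_edge' hC
  have h2 : ∀ u v, ValidV n M u → ValidV n M v → u ≠ v → stH one g u v = 2 → ¬ G.Adj u v :=
    gen_nonedge' hC
  refine ⟨fun x => decide (G.Adj (Sum.inl (false, x)) (Sum.inl (true, x))), ?_, fun gg hgg => ?_⟩
  · have hv1 : ValidV n M (Sum.inl (false, one)) := hgs.1
    have hv2 : ValidV n M (Sum.inl (true, one)) := hgs.1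
    have hne : (Sum.inl (false, one) : HV) ≠ Sum.inl (true, one) := by simp
    have hst : stH one g (Sum.inl (false, one)) (Sum.inl (true, one)) = 1 := by simp [stH]
    exact decide_eq_true (h1 _ _ hv1 hv2 hne hst)
  · obtain ⟨c, hc, hcg⟩ := List.getElem_of_mem hgg
    have hcM : c < M := by rw [hM]; exact hc
    have hgc : g c = gg := by
      rw [hg c hcM hc, hcg]
    obtain ⟨hd, hp, hv⟩ := hgs.2.2 gg hgg
    rw [← hgc] at hd hp hv ⊢
    exact sound' h1 h2 (gen_inl' hC) hcM hd hv hgs.2.1 hp _ (fun x => by simp)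

/-! ### The class -/

/-- `G` has no induced cycle with `5`, `9` or `11` vertices. -/
def NoCycles {n : ℕ} (G : SimpleGraph (Fin n)) : Prop :=
  ∀ l, (l = 5 ∨ l = 9 ∨ l = 11) → IsEmpty (SimpleGraph.cycleGraph l ↪g G)

theorem cyc5 : ∀ i j : Fin 5, (SimpleGraph.cycleGraph 5).Adj i j ↔
    ((i : ℕ) + 1) % 5 = j ∨ ((j : ℕ) + 1) % 5 = i := by decide

theorem cyc9 : ∀ i j : Fin 9, (SimpleGraph.cycleGraph 9).Adj i j ↔
    ((i : ℕ) + 1) % 9 = j ∨ ((j : ℕ) + 1) % 9 = i := by decide

theorem cyc11 : ∀ i j : Fin 11, (SimpleGraph.cycleGraph 11).Adj i j ↔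
    ((i : ℕ) + 1) % 11 = j ∨ ((j : ℕ) + 1) % 11 = i := by decide

theorem inj5 : ∀ i j : Fin 5, (∀ k : Fin 5, (SimpleGraph.cycleGraph 5).Adj i k ↔
    (SimpleGraph.cycleGraph 5).Adj j k) → i = j := by decide

theorem inj9 : ∀ i j : Fin 9, (∀ k : Fin 9, (SimpleGraph.cycleGraph 9).Adj i k ↔
    (SimpleGraph.cycleGraph 9).Adj j k) → i = j := by decide

theorem inj11 : ∀ i j : Fin 11, (∀ k : Fin 11, (SimpleGraph.cycleGraph 11).Adj i k ↔
    (SimpleGraph.cycleGraph 11).Adj j k) → i = j := by decide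

theorem emb_of_hole {W : Type} {G : SimpleGraph W} {m : ℕ}
    (hc : ∀ i j : Fin m, (SimpleGraph.cycleGraph m).Adj i j ↔
      ((i : ℕ) + 1) % m = j ∨ ((j : ℕ) + 1) % m = i)
    (hi : ∀ i j : Fin m, (∀ k : Fin m, (SimpleGraph.cycleGraph m).Adj i k ↔
      (SimpleGraph.cycleGraph m).Adj j k) → i = j)
    {f : ℕ → W} (h : Hole G m f) : Nonempty (SimpleGraph.cycleGraph m ↪g G) := by
  have hadj : ∀ i j : Fin m, G.Adj (f i) (f j) ↔ (SimpleGraph.cycleGraph m).Adj i j :=
    fun i j => (h i i.2 j j.2).trans (hc i j).symm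
  refine ⟨⟨⟨fun i : Fin m => f i, fun i j hij => hi i j fun k => ?_⟩, fun {i j} => hadj i j⟩⟩
  rw [← hadj, ← hadj]
  simp only at hij
  rw [hij]

theorem no_hole {n : ℕ} {G : SimpleGraph (Fin n)} (h : NoCycles G) {l : ℕ}
    (hl : l = 2 ∨ l = 4 ∨ l = 5) (f : ℕ → Fin n) : ¬ Hole G (2 * l + 1) f := by
  intro hh
  rcases hl with rfl | rfl | rfl
  · exact (h 5 (by omega)).false (emb_of_hole cyc5 inj5 hh).some
  · exact (h 9 (by omega)).false (emb_of_hole cyc9 inj9 hh).some
  · exact (h 11 (by omega)).false (emb_of_hole cyc11 inj11 hh).some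

theorem cyc_adj {n : ℕ} (hn : 3 ≤ n) (a b : Fin n) : (SimpleGraph.cycleGraph n).Adj a b ↔
    ((a : ℕ) + 1) % n = b ∨ ((b : ℕ) + 1) % n = a := by
  rw [SimpleGraph.cycleGraph_adj']
  have ha := a.2
  have hb := b.2
  rw [Fin.sub_def, Fin.sub_def]
  simp only
  have h1 : ∀ x y : ℕ, x < n → y < n → ((n - x + y) % n = 1 ↔ (x + 1) % n = y) := by
    intro x y hx hy
    rcases Nat.lt_or_ge y x with h | h
    · rw [Nat.mod_eq_of_lt (show n - x + y < n by omega)]
      rcases Nat.lt_or_ge (x + 1) n with h2 | h2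
      · rw [Nat.mod_eq_of_lt h2]; omega
      · have : x + 1 = n := by omega
        rw [this, Nat.mod_self]; omega
    · rw [show n - x + y = (y - x) + n by omega, Nat.add_mod_right,
        Nat.mod_eq_of_lt (show y - x < n by omega)]
      rcases Nat.lt_or_ge (x + 1) n with h2 | h2
      · rw [Nat.mod_eq_of_lt h2]; omega
      · have : x + 1 = n := by omega
        rw [this, Nat.mod_self]; omega
  rw [h1 _ _ hb ha, h1 _ _ ha hb]
  exact or_comm

/-- Perfect graphs have no odd holes. -/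
theorem noOddHole_of_perfect {n : ℕ} {G : SimpleGraph (Fin n)} (h : Perfect G) (l : ℕ)
    (hl : 2 ≤ l) : IsEmpty (SimpleGraph.cycleGraph (2 * l + 1) ↪g G) := by
  constructor
  intro φ
  have hg : Good G ((range (2 * l + 1)).image (fun i => φ (Fin.ofNat (2 * l + 1) i))) := h.good _
  refine not_hole hl hg ?_
  intro i hi j hj
  rw [φ.map_adj_iff, cyc_adj (by omega)]
  have e1 : (Fin.ofNat (2 * l + 1) i : ℕ) = i := Nat.mod_eq_of_lt hi
  have e2 : (Fin.ofNat (2 * l + 1) j : ℕ) = j := Nat.mod_eq_of_lt hj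
  rw [e1, e2]

/-! ### The reduction -/

/-- The instance is a partitioned probe `C` graph: the nonprobes are pairwise nonadjacent, and a
graph of the class `C` can be obtained by adding edges between nonprobes. -/
def PartitionedProbe (C : ∀ n : ℕ, SimpleGraph (Fin n) → Prop) (I : Inst) : Prop :=
  (∀ u v, I.nonprobe u = true → I.nonprobe v = true → ¬ I.G.Adj u v) ∧
  ∃ F : SimpleGraph (Fin I.n), (∀ u v, F.Adj u v → I.nonprobe u = true ∧ I.nonprobe v = true) ∧
    C I.n (I.G ⊔ F)

theorem abs_forward' {N n one M : ℕ} {G0 : SimpleGraph (Fin N)} {np : Fin N → Bool}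
    {f : Fin N → CV} {g : ℕ → Gad} (hinj : Function.Injective f)
    (hrange : ∀ x : CV, (∃ i, f i = x) ↔ SP (ValidV n M) x)
    (hG0 : ∀ i j, G0.Adj i j ↔ adjC (stH one g) (f i) (f j) = true)
    (hnp : ∀ i, np i = isN (f i)) {F : SimpleGraph (Fin N)}
    (hF : ∀ u v, F.Adj u v → np u = true ∧ np v = true) (hno : NoCycles (G0 ⊔ F)) :
    ∃ G : SimpleGraph HV, NoHoles (hat G (stH one g)) (SP (ValidV n M)) := by
  classical
  let G : SimpleGraph HV :=
    { Adj := fun u v => ∃ i j : Fin N, f i = Sum.inl u ∧ f j = Sum.inl v ∧ (G0 ⊔ F).Adj i j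
      symm := ⟨fun u v ⟨i, j, h1, h2, h3⟩ => ⟨j, i, h2, h1, h3.symm⟩⟩
      loopless := ⟨fun u ⟨i, j, h1, h2, h3⟩ => by
        have : i = j := hinj (h1.trans h2.symm)
        subst this
        exact (G0 ⊔ F).loopless.irrefl _ h3⟩ }
  refine ⟨G, ?_⟩
  have hnot : ∀ i, (∀ u, f i ≠ Sum.inl u) → ∀ j, ¬ F.Adj i j := by
    intro i hi j h
    have := (hF i j h).1
    rw [hnp] at this
    rcases hfi : f i with u | a
    · exact hi u hfi
    · rw [hfi] at this
      exact absurd this (by simp [isN])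
  have hcomap : G0 ⊔ F = (hat G (stH one g)).comap f := by
    ext i j
    rw [SimpleGraph.comap_adj]
    have hor : (G0 ⊔ F).Adj i j ↔ G0.Adj i j ∨ F.Adj i j := SimpleGraph.sup_adj _ _ _ _
    rcases hi : f i with u | a
    · rcases hj : f j with v | b
      · rw [hat_inl_inl]
        constructor
        · intro h
          exact ⟨i, j, hi, hj, h⟩
        · rintro ⟨i', j', hi', hj', h⟩
          have e1 : i' = i := hinj (hi'.trans hi.symm)
          have e2 : j' = j := hinj (hj'.trans hj.symm)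
          rwa [e1, e2] at h
      · rw [hat_inl_inr, hor, hG0, hi, hj]
        constructor
        · rintro (h | h)
          · exact h
          · exact absurd h.symm (hnot j (by rw [hj]; simp) i)
        · intro h
          exact Or.inl h
    · have hFi := hnot i (by rw [hi]; simp) j
      rcases hj : f j with v | b
      · rw [hat_inr_inl, hor, hG0, hi, hj]
        constructor
        · rintro (h | h)
          · exact h
          · exact absurd h hFi
        · intro h
          exact Or.inl h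
      · rw [hat_inr_inr, hor, hG0, hi, hj]
        constructor
        · rintro (h | h)
          · exact h
          · exact absurd h hFi
        · intro h
          exact Or.inl h
  intro l hl φ hφ hole
  have hex : ∀ i, ∃ a : Fin N, i < 2 * l + 1 → f a = φ i := by
    intro i
    by_cases hi : i < 2 * l + 1
    · obtain ⟨a, ha⟩ := (hrange _).2 (hφ i hi)
      exact ⟨a, fun _ => ha⟩
    · obtain ⟨a, -⟩ := (hrange _).2 (hφ 0 (by omega))
      exact ⟨a, fun h => absurd h hi⟩
  choose ψ hψ using hex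
  refine no_hole hno hl ψ ?_
  intro i hi j hj
  rw [hcomap, SimpleGraph.comap_adj, hψ i hi, hψ j hj]
  exact hole i hi j hj

variable {C : ∀ n : ℕ, SimpleGraph (Fin n) → Prop}

theorem mkI_spec' (hP : ∀ n G, Perfect G → C n G) (hN : ∀ n G, C n G → NoCycles G)
    {n one xp : ℕ} {gs : List Gad} (hgs : OkGs n one xp gs) :
    PartitionedProbe C (mkI n one gs) ↔
      ∃ y : ℕ → Bool, y one = true ∧ ∀ g ∈ gs, SatG g y = true := by
  have hinj : Function.Injective (fun i : Fin (cvs n gs.length).length => (cvs n gs.length)[i]) := by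
    intro i j h
    exact Fin.ext ((List.Nodup.getElem_inj_iff (nodup_cvs n gs.length)).1 h)
  have hrange : ∀ x : CV, (∃ i : Fin (cvs n gs.length).length, (cvs n gs.length)[i] = x) ↔
      SP (ValidV n gs.length) x := by
    intro x
    unfold SP
    rw [← mem_cvs]
    constructor
    · rintro ⟨i, rfl⟩
      exact List.getElem_mem i.2
    · intro hx
      obtain ⟨i, hi, hix⟩ := List.getElem_of_mem hx
      exact ⟨⟨i, hi⟩, hix⟩
  have hgc : ∀ c < gs.length, ∀ hc : c < gs.length, gs.getD c (false, 0, 0, 0) = gs[c] :=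
    fun c _ hc => List.getD_eq_getElem _ _ hc
  constructor
  · rintro ⟨_, F, hF, hC⟩
    obtain ⟨G, hG⟩ := abs_forward' (N := (cvs n gs.length).length) (one := one)
      (g := fun c => gs.getD c (false, 0, 0, 0)) hinj hrange (fun i j => Iff.rfl)
      (fun i => rfl) hF (hN _ _ hC)
    exact abs_sat' hgs rfl hgc hG
  · intro h
    obtain ⟨h1, F, h2, h3⟩ := (mkI_spec hgs).2 h
    exact ⟨h1, F, h2, hP _ _ h3⟩

theorem red_spec' (hP : ∀ n G, Perfect G → C n G) (hN : ∀ n G, C n G → NoCycles G)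
    {φ : List (Lit ℕ × Lit ℕ × Lit ℕ)} (h : Distinct3 φ ∧ Bounded3 φ ∧ φ ≠ []) :
    SAT3 φ ↔ PartitionedProbe C (red φ) := by
  rw [sat_iff h.2.1]
  unfold red
  rw [mkI_spec' hP hN (okGs h.1 h.2.1)]

/-- The hardness theorem. -/
theorem hard (hP : ∀ n G, Perfect G → C n G) (hN : ∀ n G, C n G → NoCycles G) :
    NPHardP (PartitionedProbe C) :=
  ((hardPr_SAT3b.trans poly_red (Pr' := fun _ : Inst => True) (fun _ _ => trivial)
    (fun _ h => red_spec' hP hN h)).toHardI).toNPHardP

end Pool.Agent.Y403.PP
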